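import Mathlib
import Pool.Agent.H482.RG.R7

/-!
# Primitive roots modulo primes outside a finite set: progressions, the Rado graph

There is a finite set `U` of primes with the following properties.

1. Let `N` and `N'` be finite sets of integers, each with a prime factor outside `U`, where `N` is
free over `U` (see below). Then in every class `a mod M` with `gcd (a, M) = 1`, `a ≢ 1 mod q` for
the primes `q ∣ M`, `M` prime to `U` and to `N`, and every class `c mod 8`, there are infinitely many
primes modulo which all the elements of `N` are primitive roots and every element of `N'` is a square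
or a primitive root, in fact at least `δ x / log² x` up to `x` for arbitrarily large `x`.

2. The graph whose vertices are the primes `p ∉ U` modulo which all the elements of `N` are primitive
roots, with `p` and `q` joined if each is a primitive root modulo the other, is the Rado graph.

3. On those of these primes which are `3 mod 4`, the digraph with an arc from `p` to `q` if `p` is a
primitive root modulo `q` is the generic (random) oriented graph.

4. One integer `n` is free over `U` as soon as its squarefree part has a prime factor outside `U`,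
so that there are only finitely many exceptional squarefree parts.
-/

set_option autoImplicit false

namespace Pool.Agent.Results.MP_991e92_nt.ArtinGraphIsRado

open Finset

/-- `n ≠ 0` has a prime factor outside `U`. -/
def Outside (U : Finset ℕ) (n : ℤ) : Prop := n ≠ 0 ∧ ∃ l : ℕ, l.Prime ∧ l ∉ U ∧ l ∣ n.natAbs

/-- `N` is free over `U` (in the class `c mod 8`): whatever the quadratic characters of the odd primes
of `U` are prescribed to be, there is a prime `p₀ ≡ c mod 8` with these characters modulo which all the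
elements of `N` are nonresidues. -/
def Free (U : Finset ℕ) (c : ℕ) (N : Finset ℤ) : Prop :=
  ∀ ε : ℕ → ℤ, (∀ u, ε u = 1 ∨ ε u = -1) → ∃ p₀ : ℕ, p₀.Prime ∧ p₀ % 8 = c ∧
    (∀ u ∈ U, u ≠ 2 → jacobiSym u p₀ = ε u) ∧ ∀ n ∈ N, jacobiSym n p₀ = -1

open Classical in
/-- The primes `p ≤ x`, `p ≡ c mod 8`, `p ≡ a mod M`, modulo which all the elements of `N` are primitive
roots and each element of `N'` is a square or a primitive root. -/
noncomputable def good (c : ℕ) (N N' : Finset ℤ) (M a x : ℕ) : Finset ℕ :=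
  (Icc 1 x).filter (fun p => p.Prime ∧ p % 8 = c ∧ p ≡ a [MOD M] ∧
    (∀ n ∈ N, orderOf (n : ZMod p) = p - 1) ∧
    ∀ n ∈ N', IsSquare (n : ZMod p) ∨ orderOf (n : ZMod p) = p - 1)

/-- The primes outside `U` modulo which all the elements of `N` are primitive roots. -/
def V (U : Finset ℕ) (N : Finset ℤ) : Set ℕ :=
  {p | p.Prime ∧ p ∉ U ∧ ∀ n ∈ N, orderOf (n : ZMod p) = p - 1}

/-- Two elements of `S` are joined if each is a primitive root modulo the other. -/
def artinGraph (S : Set ℕ) : SimpleGraph S where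
  Adj p q := p ≠ q ∧ orderOf ((p : ℕ) : ZMod q) = q - 1 ∧ orderOf ((q : ℕ) : ZMod p) = p - 1
  symm := ⟨fun _ _ h => ⟨h.1.symm, h.2.2, h.2.1⟩⟩
  loopless := ⟨fun _ h => h.1 rfl⟩

/-- The Rado graph: `i < j` are joined if the `i`-th binary digit of `j` is `1`. -/
def radoGraph : SimpleGraph ℕ where
  Adj i j := (i < j ∧ j.testBit i = true) ∨ (j < i ∧ i.testBit j = true)
  symm := ⟨fun _ _ h => h.symm⟩
  loopless := ⟨fun _ h => by
    rcases h with h | h
    · exact lt_irrefl _ h.1
    · exact lt_irrefl _ h.1⟩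

/-- The generic oriented graph: for `i < j` there is an arc from `i` to `j` if the `i`-th ternary
digit of `j` is `1`, an arc from `j` to `i` if this digit is `2`, and no arc if it is `0`. -/
def arc (i j : ℕ) : Prop := (i < j ∧ j / 3 ^ i % 3 = 1) ∨ (j < i ∧ i / 3 ^ j % 3 = 2)

open Classical in
theorem good_eq (c : ℕ) (N N' : Finset ℤ) (M a x : ℕ) :
    Pool.Agent.H482.RG.Ex c N N' M a x = good c N N' M a x := by
  ext p
  unfold Pool.Agent.H482.RG.Ex Pool.Agent.H482.RG.SqOrRoot good
  simp only [mem_filter]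

/-- **Main theorem.** -/
theorem result : ∃ U : Finset ℕ, (∀ u ∈ U, u.Prime) ∧
    -- 1. primitive roots modulo primes in progressions
    (∀ c : ℕ, (c = 1 ∨ c = 3 ∨ c = 5 ∨ c = 7) → ∀ N N' : Finset ℤ, (∀ n ∈ N, Outside U n) →
      (∀ n ∈ N', Outside U n) → Free U c N → ∀ M a : ℕ, M ≠ 0 → (∀ u ∈ U, ¬ u ∣ M) →
      (∀ n ∈ N, IsCoprime n (M : ℤ)) → a.Coprime M → (∀ q : ℕ, q.Prime → q ∣ M → ¬ a ≡ 1 [MOD q]) →
      ∃ δ : ℝ, 0 < δ ∧ ∀ X : ℕ, ∃ x : ℕ, X ≤ x ∧
        δ * (x / (Real.log x) ^ 2) ≤ ((good c N N' M a x).card : ℝ)) ∧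
    -- 2. the graph
    (∀ c : ℕ, (c = 1 ∨ c = 5) → ∀ N : Finset ℤ, (∀ n ∈ N, Outside U n) → Free U c N →
      Nonempty (artinGraph (V U N) ≃g radoGraph)) ∧
    -- 3. the digraph on the primes `3 mod 4`
    (∀ c : ℕ, (c = 3 ∨ c = 7) → ∀ N : Finset ℤ, (∀ n ∈ N, Outside U n) → Free U c N →
      ∃ e : {p : ℕ // p ∈ V U N ∧ p % 4 = 3} ≃ ℕ, ∀ p q : {p : ℕ // p ∈ V U N ∧ p % 4 = 3},
        (orderOf ((p : ℕ) : ZMod q) = q - 1 ↔ arc (e p) (e q))) ∧
    -- 4. the condition for one integer
    ∀ n : ℤ, (∃ l : ℕ, l.Prime ∧ l ∉ U ∧ Odd (n.natAbs.factorization l)) →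
      Outside U n ∧ ∀ c : ℕ, (c = 1 ∨ c = 3 ∨ c = 5 ∨ c = 7) → Free U c {n} := by
  classical
  obtain ⟨U, hU⟩ := Pool.Agent.H482.RG.exists_Univ
  refine ⟨U, hU.2.2.1, ?_, ?_, ?_, ?_⟩
  · intro c hc N N' hN hN' hF M a hM0 hMU hMN haM haq
    obtain ⟨δ, hδ, h⟩ := Pool.Agent.H482.RG.ext_core hU c hc N N' hN hN' hF M a hM0 hMU haM (by
      intro q hq h1
      have hqp := Nat.prime_of_mem_primeFactors hq
      apply haq q hqp (Nat.dvd_of_mem_primeFactors hq)
      unfold Nat.ModEq
      rw [h1, Nat.mod_eq_of_lt hqp.one_lt]) (by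
      intro n hn q hq hqn
      have hqp := Nat.prime_of_mem_primeFactors hq
      have h1 := (hMN n hn).isUnit_of_dvd' (Int.natCast_dvd.2 hqn)
        (Int.natCast_dvd_natCast.2 (Nat.dvd_of_mem_primeFactors hq))
      rw [Int.isUnit_iff] at h1
      have := hqp.two_le
      omega)
    refine ⟨δ, hδ, fun X => ?_⟩
    obtain ⟨x, hx1, hx2⟩ := (h.and_eventually (Filter.eventually_ge_atTop X)).exists
    rw [good_eq] at hx1
    exact ⟨x, hx2, hx1.le⟩
  · intro c hc N hN hF
    exact Pool.Agent.H482.RG.iso_rado hU c hc hN hF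
  · intro c hc N hN hF
    exact Pool.Agent.H482.RG.iso_arc hU c hc hN hF
  · rintro n ⟨l, hl, hlU, hln⟩
    refine ⟨⟨?_, l, hl, hlU, ?_⟩, fun c hc =>
      Pool.Agent.H482.RG.Star_single U hU.1 hU.2.2.1 c hc n l hl hlU hln⟩
    · rintro rfl
      simp at hln
    · by_contra h
      rw [Nat.factorization_eq_zero_of_not_dvd h] at hln
      exact absurd hln (by decide)

end Pool.Agent.Results.MP_991e92_nt.ArtinGraphIsRado
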