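import Mathlib
import Pool.Agent.H534.NW.ArtW2

/-!
# The primes with given simultaneous primitive roots contain every shape at narrow dilates, as do their dense subsets

`S(n)` is the set of the primes modulo which `n` is a primitive root.  For all but at most `K ^ 2` of the
primes `n` (an absolute constant `K`), and more generally in every set of pairwise coprime integers, the
set `S(n)`, and in fact the intersection of the `S(n)`, `n ∈ F`, for every finite set `F` outside the
exceptional set, has the following property for infinitely many `x`: it contains a set `T x` of at least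
`c₀ x / (log x) ^ 2` primes up to `x` such that in all subsets of `T x` of positive relative density, for EVERY
shape `b_1, ..., b_k` (no exceptions) and a positive proportion of the multiples `D = W d`, `d ≤ X`, for all `X`
from a power of `log x` up to `(x / (W b_j)) ^ (1 / 3)`, one has `p, p + D b_1, ..., p + D b_k` for as many `p` as
expected, up to a constant (the primes `p` used here have `p - 1 = 2 ^ a m`, `m` without prime factors
`≤ x ^ (1 / K)`).
The modulus `W = WS σ b x` is small: it is the product of the primes `p ≤ (log x) ^ (1 - σ)` such that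
`p ≤ log log x` or two of the numbers `0, b_1, ..., b_k` are congruent modulo `p`.  So for fixed (or bounded)
`b` all `D` below a fixed power of `log x` can be had, and for all shapes with `b_j ≤ x ^ (1 - o(1))` differences
`D = x ^ o(1)`.

Proof.  The Gupta-Murty and Heath-Brown argument in the form of the library (groups of rational numbers
which contain the traces of the `l`-th powers, compactness) gives a dense set of sifted primes in a fixed
class modulo a fixed number; the relative multidimensional Szemerédi theorem with narrow differences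
(`Pool.Agent.H534.NW`), for the pair of linear forms `q X + c` and `(q X + c - 1) / 2 ^ a`, does the rest.
-/

set_option autoImplicit false

open Finset Filter

namespace Pool.Agent.Results.MP_991e92_nt.EveryShapeOfArtinPrimes

open Pool.Agent.H534.NW (WS Shapes)

/-- The group `G` of rational numbers does not contain `K` multiplicatively independent elements. -/
def RankLt (K : ℕ) (G : Subgroup ℚˣ) : Prop :=
  ∀ b : Fin K → ℚˣ, (∀ j, b j ∈ G) → ¬ ∀ e : Fin K → ℤ, ∏ j, b j ^ e j = 1 → ∀ j, e j = 0

/-- `p` is a prime modulo which all the elements of `F` are primitive roots -/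
def AllRoots (F : Finset ℤ) (p : ℕ) : Prop :=
  p.Prime ∧ ∀ n ∈ F, orderOf ((n : ℤ) : ZMod p) = p - 1

/-- There are an infinite set `𝒳`, sets `T x` of primes `p ≤ x` modulo which all the elements of `F` are primitive
roots, and `c₀ > 0` such that `T x` has at least `c₀ x / (log x) ^ 2` elements for `x` in `𝒳`, and for all `k ≥ 1`
and `κ > 0`, if `x` in `𝒳` is large, every subset `A` of `T x` with at least `κ x / (log x) ^ 2` elements has the
property `Shapes k 2 c σ L x`, where `c, σ, L` depend on `F`, `k`, `κ` only: for every `X ≥ (log x) ^ L` and ALL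
distinct `b_1, ..., b_k ≥ 1` with `b_j W X ^ 3 ≤ x`, `W = WS σ b x`, at least `c X` of the `d ≤ X` are such that for
at least `c x / (log x) ^ (2 (k + 1))` elements `p` of `A` all the `p + W d b_j` are elements of `A`. -/
def EveryShape (F : Finset ℤ) : Prop := ∃ (𝒳 : Set ℕ) (T : ℕ → Finset ℕ) (c₀ : ℝ), 𝒳.Infinite ∧ 0 < c₀ ∧
  (∀ x, T x ⊆ Icc 1 x ∧ ∀ p ∈ T x, AllRoots F p) ∧ (∀ x ∈ 𝒳, c₀ * (x / Real.log x ^ 2) ≤ (T x).card) ∧
  ∀ (k : ℕ) (κ : ℝ), 1 ≤ k → 0 < κ → ∃ c σ : ℝ, 0 < c ∧ 0 < σ ∧ σ ≤ 1 / 2 ∧ ∃ L : ℕ, ∀ᶠ x : ℕ in atTop, x ∈ 𝒳 →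
    ∀ A ⊆ T x, κ * (x / Real.log x ^ 2) ≤ A.card → Shapes k 2 c σ L x A

theorem every_of {F : Finset ℤ} (h : Pool.Agent.H534.NW.ShFW F) : EveryShape F := by
  obtain ⟨𝒳, T, c₀, h1, h2, h3, h4, h5⟩ := h
  refine ⟨𝒳, T, c₀, h1, h2, h3, h4, fun k κ hk hκ => ?_⟩
  obtain ⟨c, σm, hc, hσm, hσm2, h6⟩ := h5 k κ hk hκ
  obtain ⟨L, h7⟩ := h6 σm hσm le_rfl
  exact ⟨c, σm, hc, hσm, hσm2, L, h7⟩

/-- There is an absolute constant `K` with the following two properties.

For every homomorphism `s` from the group of nonzero rational numbers to `{1, -1}` with `s (-3) = -1`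
there are `K` groups of rational numbers, each without `K` multiplicatively independent elements, such that
every finite set `F` of integers `n` with `s n = -1` outside these groups has the property `EveryShape`.

In every set `M` of pairwise coprime integers, none a perfect square and none `-1`, there are at most `K ^ 2`
elements outside which every finite subset has the property `EveryShape`. -/
theorem result : ∃ K : ℕ,
    (∀ s : ℚˣ →* ℤˣ, (∀ u : ℚˣ, (u : ℚ) = -3 → s u = -1) →
      ∃ G : Fin K → Subgroup ℚˣ, (∀ i, RankLt K (G i)) ∧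
        ∀ F : Finset ℤ, (∀ n ∈ F, ∃ u : ℚˣ, (u : ℚ) = n ∧ s u = -1 ∧ ∀ i, u ∉ G i) → EveryShape F) ∧
    ∀ M : Set ℤ, (∀ n ∈ M, n ≠ -1 ∧ ¬ IsSquare n) → (∀ m ∈ M, ∀ n ∈ M, m ≠ n → IsCoprime m n) →
      ∃ E ⊆ M, E.encard ≤ K ^ 2 ∧ ∀ F : Finset ℤ, (F : Set ℤ) ⊆ M \ E → EveryShape F := by
  obtain ⟨K, h1, h2⟩ := Pool.Agent.H534.NW.main2W
  refine ⟨K, fun s hs => ?_, fun M hM hMc => ?_⟩
  · obtain ⟨G, hG, h⟩ := h1 s hs
    exact ⟨G, hG, fun F hF => every_of (h F hF)⟩
  · obtain ⟨E, hE, hEc, h⟩ := h2 M hM hMc
    exact ⟨E, hE, hEc, fun F hF => every_of (h F hF)⟩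

end Pool.Agent.Results.MP_991e92_nt.EveryShapeOfArtinPrimes
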