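import Mathlib
import Pool.Agent.H482.MR.M10

/-!
# Graphs and tournaments of mutual primitive roots inside `S(n)`

Let `T x z c` be the set of the primes `p ≤ x`, `p ≡ c mod 4`, `c = 1` or `3`, such that `p - 1`
has no odd prime factor `≤ z`. For `k` primes from such sets it is prescribed for all pairs which
one is a primitive root modulo the other one. By the quadratic reciprocity law this makes sense
only if the relation is symmetric for pairs which are not both `3 mod 4` and antisymmetric for the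
other ones (compatible relations).

1. For arbitrary subsets `A_i` of `T x z (c_i)` the number of the `k`-tuples of distinct primes
   `t_i ∈ A_i` with the prescribed relation is `2 ^ (-k (k - 1) / 2) ∏ |A_i|`, up to an error
   `k² z ^ (-1/2) ∏ |T x z (c_i)|`.
2. For all but at most `K log x / log z` elements `n = D m²` (`D ≡ 1 mod 4` squarefree) of every
   multiplicatively independent set of integers with `|n| ≤ (log x) ^ B`, the set `S(n)` of Q1 has
   the relative density `δ D = (1 - μ(|D|) ∏_{q ∣ D} 1 / (q - 2)) / 2` in both classes, up to `ε`,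
   and the number of the `k`-tuples with the prescribed relation and with `t_i ∈ S(n)` is
   asymptotically `2 ^ (-k (k - 1) / 2) (δ D) ^ k ∏ |T x z (c_i)|`.
3. There is an absolute constant `C` such that in every multiplicatively independent set of
   integers with squarefree part `1 mod 4`, not a square, all but at most `C` elements `n` have the
   property: every finite graph, every finite tournament, and more generally every compatible
   relation occurs in `S(n)`, among arbitrarily large primes.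
-/

set_option autoImplicit false

open Finset

namespace Pool.Agent.Results.MP_991e92_nt.MutualPrimitiveRoots

open Classical in
/-- the primes `p ≤ x`, `p ≡ c mod 4`, such that `p - 1` has no odd prime factor `≤ z` -/
noncomputable def T (x z c : ℕ) : Finset ℕ :=
  (range (x + 1)).filter (fun p => p.Prime ∧ p % 4 = c ∧
    ∀ q ∈ (p - 1).primeFactors, q = 2 ∨ z < q)

/-- `n` is a primitive root modulo the prime `p` -/
def IsRoot (n : ℤ) (p : ℕ) : Prop := orderOf (n : ZMod p) = p - 1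

open Classical in
/-- the primes of `T x z c` with the primitive root `n` -/
noncomputable def S (n : ℤ) (x z c : ℕ) : Finset ℕ := (T x z c).filter (fun p => IsRoot n p)

/-- the prescribed relation `s` is compatible with the classes `c` modulo `4` -/
def Compatible {k : ℕ} (c : Fin k → ℕ) (s : Fin k → Fin k → Prop) : Prop :=
  (∀ i, c i = 1 ∨ c i = 3) ∧ ∀ i j, i ≠ j →
    ((c i = 3 ∧ c j = 3) → (s j i ↔ ¬ s i j)) ∧ (¬ (c i = 3 ∧ c j = 3) → (s j i ↔ s i j))

/-- the `t i` are distinct, and `t i` is a primitive root modulo `t j` if and only if `s i j` -/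
def Pattern {k : ℕ} (s : Fin k → Fin k → Prop) (t : Fin k → ℕ) : Prop :=
  Function.Injective t ∧ ∀ i j : Fin k, i ≠ j → (IsRoot (t i) (t j) ↔ s i j)

open Classical in
/-- the number of the tuples with the prescribed relation -/
noncomputable def count {k : ℕ} (A : Fin k → Finset ℕ) (s : Fin k → Fin k → Prop) : ℕ :=
  ((Fintype.piFinset A).filter (fun t => Pattern s t)).card

/-- the relative density of the primes with a primitive root of squarefree part `D` -/
noncomputable def δ (D : ℤ) : ℝ :=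
  1 / 2 * (1 - ((ArithmeticFunction.moebius D.natAbs : ℤ) : ℝ) *
    ∏ q ∈ D.natAbs.primeFactors, (1 / ((q : ℝ) - 2)))

/-- multiplicative independence -/
def Independent (M : Finset ℤ) : Prop :=
  ∀ c : ℤ → ℤ, ∏ n ∈ M, (n : ℚ) ^ (c n) = 1 → ∀ n ∈ M, c n = 0

/-- every compatible relation occurs among large primes with the primitive root `n` -/
def Universal (n : ℤ) : Prop :=
  ∀ (k : ℕ) (c : Fin k → ℕ) (s : Fin k → Fin k → Prop), Compatible c s → ∀ N : ℕ,
    ∃ t : Fin k → ℕ, (∀ i, N < t i ∧ (t i).Prime ∧ t i % 4 = c i ∧ IsRoot n (t i)) ∧ Pattern s t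

open Pool.Agent.H482.MR

theorem T_eq (x z c : ℕ) : T x z c = Tf x z c := by
  unfold T Tf
  ext p
  simp only [mem_filter, mem_range, mem_TT]
  constructor
  · rintro ⟨h1, h2, h3, h4⟩
    refine ⟨⟨⟨h2.pos, by omega⟩, h2, fun q hq hqp => ?_⟩, h3⟩
    rw [Pool.Agent.Y855.mem_OP] at hq
    have hp1 : p - 1 ≠ 0 := by
      intro h0
      have := h2.two_le
      omega
    rcases h4 q (Nat.mem_primeFactors.2 ⟨hq.1, hqp, hp1⟩) with h | h <;> omega
  · rintro ⟨⟨h1, h2, h3⟩, h4⟩
    refine ⟨by omega, h2, h4, fun q hq => ?_⟩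
    by_contra hcon
    push Not at hcon
    have hqp := Nat.prime_of_mem_primeFactors hq
    refine h3 q (Pool.Agent.Y855.mem_OP.2 ⟨hqp, ?_, hcon.2⟩) (Nat.dvd_of_mem_primeFactors hq)
    have := hqp.two_le
    omega

theorem pattern_iff {k : ℕ} (s : Fin k → Fin k → Prop) (t : Fin k → ℕ) : Pattern s t ↔
    (Function.Injective t ∧ ∀ i j : Fin k, i ≠ j →
      (orderOf ((t i : ℕ) : ZMod (t j)) = t j - 1 ↔ s i j)) := by
  unfold Pattern IsRoot
  simp only [Int.cast_natCast]

theorem count_eq {k : ℕ} (A : Fin k → Finset ℕ) (s : Fin k → Fin k → Prop) :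
    count A s = cnt A s := by
  classical
  unfold count cnt
  exact congrArg card (filter_congr (fun t _ => pattern_iff s t))

open Classical in
theorem S_card (n : ℤ) (x z c : ℕ) :
    (S n x z c).card = ((Tf x z c).filter (fun p => orderOf (n : ZMod p) = p - 1)).card := by
  unfold S
  rw [T_eq]
  exact congrArg card (filter_congr (fun _ _ => Iff.rfl))

theorem universal_iff (n : ℤ) : Universal n ↔ Rich n := by
  unfold Universal Rich
  constructor
  · intro h k c s hcs N
    obtain ⟨t, ht, hp⟩ := h k c s hcs N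
    rw [pattern_iff] at hp
    exact ⟨t, hp.1, ht, hp.2⟩
  · intro h k c s hcs N
    obtain ⟨t, h1, h2, h3⟩ := h k c s hcs N
    exact ⟨t, h2, (pattern_iff s t).2 ⟨h1, h3⟩⟩

/-- differences of products -/
theorem prod_diff {k : ℕ} (a b n : Fin k → ℝ) (ε : ℝ) (hε : 0 ≤ ε) (ha0 : ∀ i, 0 ≤ a i)
    (han : ∀ i, a i ≤ n i) (hb0 : ∀ i, 0 ≤ b i) (hbn : ∀ i, b i ≤ n i)
    (hab : ∀ i, |a i - b i| ≤ ε * n i) : |∏ i, a i - ∏ i, b i| ≤ k * ε * ∏ i, n i := by
  induction k with
  | zero => simp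
  | succ k ih =>
    have hn0 : ∀ i, 0 ≤ n i := fun i => (ha0 i).trans (han i)
    rw [Fin.prod_univ_succ, Fin.prod_univ_succ, Fin.prod_univ_succ]
    have h1 := ih (fun i => a i.succ) (fun i => b i.succ) (fun i => n i.succ) (fun i => ha0 _)
      (fun i => han _) (fun i => hb0 _) (fun i => hbn _) (fun i => hab _)
    have e : a 0 * ∏ i : Fin k, a i.succ - b 0 * ∏ i : Fin k, b i.succ =
        (a 0 - b 0) * ∏ i : Fin k, a i.succ +
          b 0 * (∏ i : Fin k, a i.succ - ∏ i : Fin k, b i.succ) := by ring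
    rw [e]
    refine (abs_add_le _ _).trans ?_
    rw [abs_mul, abs_mul, abs_of_nonneg (hb0 0)]
    have h2 : |∏ i : Fin k, a i.succ| ≤ ∏ i : Fin k, n i.succ := by
      rw [abs_of_nonneg (prod_nonneg fun i _ => ha0 _)]
      exact prod_le_prod (fun i _ => ha0 _) fun i _ => han _
    have h3 : |a 0 - b 0| * |∏ i : Fin k, a i.succ| ≤ ε * n 0 * ∏ i : Fin k, n i.succ :=
      mul_le_mul (hab 0) h2 (abs_nonneg _) (mul_nonneg hε (hn0 0))
    have h4 : b 0 * |∏ i : Fin k, a i.succ - ∏ i : Fin k, b i.succ| ≤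
        n 0 * (k * ε * ∏ i : Fin k, n i.succ) := mul_le_mul (hbn 0) h1 (abs_nonneg _) (hn0 0)
    have e2 : ((k + 1 : ℕ) : ℝ) * ε * (n 0 * ∏ i : Fin k, n i.succ) =
        ε * n 0 * ∏ i : Fin k, n i.succ + n 0 * (k * ε * ∏ i : Fin k, n i.succ) := by
      push_cast; ring
    rw [e2]
    exact add_le_add h3 h4

/-- **Theorem.** See the comment at the beginning of the file. -/
theorem result :
    (∀ (B : ℕ) (ε : ℝ), 0 < ε → ∃ K : ℝ, 1 ≤ K ∧ ∃ x₀ : ℕ, ∀ x : ℕ, x₀ ≤ x → ∀ z : ℕ,
      K * (Real.log x * Real.log (Real.log x)) ≤ (Real.log z) ^ 2 → (z : ℝ) ^ K ≤ x →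
      (∀ c : ℕ, c = 1 ∨ c = 3 → (x : ℝ) / (K * (Real.log x * Real.log z)) ≤ (T x z c).card) ∧
      (∀ (k : ℕ) (c : Fin k → ℕ) (s : Fin k → Fin k → Prop), Compatible c s →
        ∀ A : Fin k → Finset ℕ, (∀ i, A i ⊆ T x z (c i)) →
        |(count A s : ℝ) - (1 / 2) ^ (k.choose 2) * ∏ i, ((A i).card : ℝ)| ≤
          (k : ℝ) ^ 2 / √z * ∏ i, ((T x z (c i)).card : ℝ)) ∧
      ∀ M : Finset ℤ, Independent M → (∀ n ∈ M, n ≠ 0 ∧ |(n : ℝ)| ≤ (Real.log x) ^ B) →
        ∃ E ⊆ M, (E.card : ℝ) ≤ K * (Real.log x / Real.log z) ∧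
        ∀ n ∈ M \ E, ∀ D m : ℤ, Squarefree D → D % 4 = 1 → n = D * m ^ 2 →
        (∀ c : ℕ, c = 1 ∨ c = 3 →
          |((S n x z c).card : ℝ) - δ D * (T x z c).card| ≤ ε * (T x z c).card) ∧
        ∀ (k : ℕ) (c : Fin k → ℕ) (s : Fin k → Fin k → Prop), Compatible c s →
          |(count (fun i => S n x z (c i)) s : ℝ) -
            (1 / 2) ^ (k.choose 2) * (δ D) ^ k * ∏ i, ((T x z (c i)).card : ℝ)| ≤
            (k * ε + (k : ℝ) ^ 2 / √z) * ∏ i, ((T x z (c i)).card : ℝ)) ∧
    ∃ C : ℕ, ∀ M : Set ℤ, (∀ n ∈ M, n ≠ 0 ∧ ∃ D m : ℤ, Squarefree D ∧ D % 4 = 1 ∧ D ≠ 1 ∧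
        n = D * m ^ 2) → (∀ F : Finset ℤ, (F : Set ℤ) ⊆ M → Independent F) →
      {n ∈ M | ¬ Universal n}.encard ≤ C := by
  classical
  refine ⟨?_, ?_⟩
  · intro B ε hε
    obtain ⟨K, hK, x₀, hx₀, H⟩ := mainA B ε hε
    refine ⟨K, by linarith, x₀, fun x hx z hKL hzK => ?_⟩
    obtain ⟨h1, h2, -, -, -, h3⟩ := H x hx z hKL hzK
    have hcount : ∀ (k : ℕ) (c : Fin k → ℕ) (s : Fin k → Fin k → Prop), Compatible c s →
        ∀ A : Fin k → Finset ℕ, (∀ i, A i ⊆ T x z (c i)) →
        |(count A s : ℝ) - (1 / 2) ^ (k.choose 2) * ∏ i, ((A i).card : ℝ)| ≤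
          (k : ℝ) ^ 2 / √z * ∏ i, ((T x z (c i)).card : ℝ) := by
      intro k c s hcs A hA
      rw [count_eq]
      simp_rw [T_eq] at hA ⊢
      exact h2 k c s hcs A hA
    refine ⟨fun c hc => by rw [T_eq]; exact (h1 c hc).1, hcount, ?_⟩
    intro M hMI hM
    obtain ⟨E, hE, hEc, -, h4⟩ := h3 M hM hMI
    refine ⟨E, hE, hEc, fun n hn D m hD hD4 hnD => ?_⟩
    have hS : ∀ c : ℕ, c = 1 ∨ c = 3 →
          |((S n x z c).card : ℝ) - δ D * (T x z c).card| ≤ ε * (T x z c).card := by
      intro c hc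
      have h5 := h4 n hn D m hD hD4 hnD c hc
      rw [S_card, T_eq]
      exact h5
    refine ⟨hS, fun k c s hcs => ?_⟩
    have h5 := hcount k c s hcs (fun i => S n x z (c i)) (fun i => filter_subset _ _)
    have hm : Squarefree D.natAbs := Int.squarefree_natAbs.2 hD
    have hm3 : ∀ q ∈ D.natAbs.primeFactors, 3 ≤ q := by
      intro q hq
      have hqp := Nat.prime_of_mem_primeFactors hq
      have hqm := Nat.dvd_of_mem_primeFactors hq
      by_contra h
      have h2 : q = 2 := by have := hqp.two_le; omega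
      rw [h2] at hqm
      have : (2 : ℤ) ∣ D := Int.natCast_dvd.2 hqm
      omega
    have hδ0 : 0 ≤ δ D := Pool.Agent.Y855.dl_nonneg D.natAbs hm hm3
    have hδ1 : δ D ≤ 1 := Pool.Agent.Y855.dl_le_one D.natAbs hm3
    have h6 := prod_diff (fun i => ((S n x z (c i)).card : ℝ))
      (fun i => δ D * ((T x z (c i)).card : ℝ)) (fun i => ((T x z (c i)).card : ℝ)) ε hε.le
      (fun i => Nat.cast_nonneg _) (fun i => by exact_mod_cast card_le_card (filter_subset _ _))
      (fun i => mul_nonneg hδ0 (Nat.cast_nonneg _))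
      (fun i => mul_le_of_le_one_left (Nat.cast_nonneg _) hδ1)
      (fun i => hS (c i) (hcs.1 i))
    have e1 : ∏ i, (δ D * ((T x z (c i)).card : ℝ)) =
        (δ D) ^ k * ∏ i, ((T x z (c i)).card : ℝ) := by
      rw [prod_mul_distrib, prod_const, card_univ, Fintype.card_fin]
    rw [e1] at h6
    set X : ℝ := (count (fun i => S n x z (c i)) s : ℝ)
    set Y : ℝ := ∏ i, ((S n x z (c i)).card : ℝ)
    set Z : ℝ := ∏ i, ((T x z (c i)).card : ℝ)
    have hZ0 : 0 ≤ Z := prod_nonneg fun i _ => Nat.cast_nonneg _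
    have e2 : X - (1 / 2) ^ (k.choose 2) * (δ D) ^ k * Z =
        (X - (1 / 2) ^ (k.choose 2) * Y) + (1 / 2) ^ (k.choose 2) * (Y - (δ D) ^ k * Z) := by ring
    rw [e2]
    refine (abs_add_le _ _).trans ?_
    rw [abs_mul, abs_of_nonneg (by positivity : (0 : ℝ) ≤ (1 / 2) ^ (k.choose 2))]
    have h7 : (1 / 2 : ℝ) ^ (k.choose 2) * |Y - (δ D) ^ k * Z| ≤ 1 * (k * ε * Z) :=
      mul_le_mul (pow_le_one₀ (by norm_num) (by norm_num)) h6 (abs_nonneg _) (by norm_num)
    linarith
  · obtain ⟨C, hC⟩ := rich_few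
    refine ⟨C, fun M hM hMI => ?_⟩
    have h1 := hC M hM hMI
    simp_rw [universal_iff]
    exact h1

end Pool.Agent.Results.MP_991e92_nt.MutualPrimitiveRoots
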