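import Mathlib
import Pool.Agent.H482.AP.Cor

/-!
# Artin primes of polynomial size, for all but boundedly many primes

Let `T k x c` be the set of the primes `p ≤ x`, `p ≡ c mod 4`, such that every odd prime factor of
`p - 1` exceeds `x ^ (1 / k)`; so `p - 1` has fewer than `k` odd prime factors. It has at least
`x / (K₁ (log x)²)` elements, for every fixed large `k`.

1. For all `k ≥ k₀`, `r`, `ε > 0`, `δ > 0` there is `K` such that for all large `x` there is a set `E` of
   at most `K` integers `≥ 2` with the following property. Let `A` be a set of at most `r` primes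
   with product at most `x ^ (1 / 2 - δ)` such that no product of distinct elements of `A` belongs to
   `E`. Then all elements of `A` are primitive roots modulo `(2 ^ (-|A|) + O(ε)) |T k x c|` of the
   primes of `T k x c`, for `c = 1` and `c = 3`. In particular (`r = 1`) all primes
   `q ≤ x ^ (1 / 2 - δ)` with at most `K` exceptions are primitive roots modulo one half of the
   primes of `T k x c`.
2. For every `δ > 0` all primes `q ≤ N` with at most `C (1 + log log N)` exceptions are primitive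
   roots modulo at least `q ^ 2` primes `p ≤ q ^ (2 + δ)`.

The proof combines a large sieve inequality for real characters and sets of integers which avoid two
residue classes modulo every prime `≤ x ^ δ` (Montgomery's inequality for the two classes and Gauss
sums, so that no factor `log x` is lost), the argument of Gupta, Murty and Heath-Brown for the residues
of large order, and a lower bound sieve with the theorem of Bombieri and Vinogradov for `T k x c`.
-/

set_option autoImplicit false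

open Finset

namespace Pool.Agent.Results.MP_991e92_nt.PolynomialSizeArtinPrimes

open Classical in
/-- the primes `p ≤ x`, `p ≡ c mod 4`, such that every odd prime factor of `p - 1` exceeds
`x ^ (1 / k)` -/
noncomputable def T (k x c : ℕ) : Finset ℕ :=
  (range (x + 1)).filter (fun p => p.Prime ∧ p % 4 = c ∧
    ∀ l ∈ (p - 1).primeFactors, l = 2 ∨ (x : ℝ) ^ (1 / (k : ℝ)) < l)

/-- `n` is a primitive root modulo the prime `p` -/
def IsRoot (n p : ℕ) : Prop := orderOf (n : ZMod p) = p - 1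

open Classical in
/-- the primes `p` of `T k x c` such that all elements of `A` are primitive roots modulo `p` -/
noncomputable def S (A : Finset ℕ) (k x c : ℕ) : Finset ℕ :=
  (T k x c).filter (fun p => ∀ q ∈ A, IsRoot q p)

open Classical in
/-- the number of the primes `p ≤ y` modulo which `q` is a primitive root -/
noncomputable def P (q : ℕ) (y : ℝ) : ℕ :=
  ((Icc 1 ⌊y⌋₊).filter (fun p => p.Prime ∧ IsRoot q p)).card

open Pool.Agent.H482.MR (Tf mem_TT zz)

theorem T_eq (k x c : ℕ) : T k x c = Tf x (zz k x) c := by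
  unfold T Tf
  ext p
  simp only [mem_filter, mem_range, mem_TT]
  have hx0 : (0 : ℝ) ≤ (x : ℝ) ^ (1 / (k : ℝ)) := by positivity
  constructor
  · rintro ⟨h1, h2, h3, h4⟩
    refine ⟨⟨⟨h2.pos, by omega⟩, h2, fun q hq hqp => ?_⟩, h3⟩
    rw [Pool.Agent.Y855.mem_OP] at hq
    have hp1 : p - 1 ≠ 0 := by
      intro h0
      have := h2.two_le
      omega
    rcases h4 q (Nat.mem_primeFactors.2 ⟨hq.1, hqp, hp1⟩) with h | h
    · omega
    · have h5 : zz k x < q := by
        unfold zz
        exact (Nat.floor_lt hx0).2 h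
      omega
  · rintro ⟨⟨h1, h2, h3⟩, h4⟩
    refine ⟨by omega, h2, h4, fun q hq => ?_⟩
    by_contra hcon
    push Not at hcon
    have hqp := Nat.prime_of_mem_primeFactors hq
    refine h3 q (Pool.Agent.Y855.mem_OP.2 ⟨hqp, ?_, ?_⟩) (Nat.dvd_of_mem_primeFactors hq)
    · have := hqp.two_le
      omega
    · unfold zz
      exact Nat.le_floor hcon.2

/-- **Theorem.** See the comment at the beginning of the file. -/
theorem result :
    (∃ (k₀ : ℕ) (K₁ : ℝ), 1 ≤ k₀ ∧ 1 ≤ K₁ ∧ ∀ k : ℕ, k₀ ≤ k → ∀ (r : ℕ) (ε δ : ℝ), 0 < ε → 0 < δ →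
      ∃ K x₀ : ℕ, 3 ≤ x₀ ∧ ∀ x : ℕ, x₀ ≤ x →
      (∀ c : ℕ, c = 1 ∨ c = 3 → (x : ℝ) / (K₁ * (Real.log x) ^ 2) ≤ (T k x c).card) ∧
      ∃ E : Finset ℕ, E.card ≤ K ∧ (∀ m ∈ E, 2 ≤ m) ∧
        ∀ A : Finset ℕ, A.card ≤ r → (∀ q ∈ A, q.Prime) →
        ((∏ q ∈ A, q : ℕ) : ℝ) ≤ (x : ℝ) ^ (1 / 2 - δ) → (∀ B ⊆ A, ∏ q ∈ B, q ∉ E) →
        ∀ c : ℕ, c = 1 ∨ c = 3 →
        |((S A k x c).card : ℝ) - (1 / 2) ^ A.card * ((T k x c).card : ℝ)| ≤
          ε * ((T k x c).card : ℝ)) ∧
    ∀ δ : ℝ, 0 < δ → ∃ C : ℝ, ∀ N : ℕ, 3 ≤ N →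
      ({q ∈ Icc 1 N | q.Prime ∧ (P q ((q : ℝ) ^ (2 + δ)) : ℝ) < (q : ℝ) ^ 2}.card : ℝ) ≤
        C * (1 + Real.log (Real.log N)) := by
  constructor
  · obtain ⟨k₀, hk₀, K₁, hK₁, h⟩ := Pool.Agent.H482.AP.main_one
    refine ⟨k₀, K₁, hk₀, hK₁, fun k hk r ε δ hε hδ => ?_⟩
    obtain ⟨K, x₀, hx₀, h2⟩ := h k hk r ε δ hε hδ
    refine ⟨K, x₀, hx₀, fun x hx => ?_⟩
    obtain ⟨h3, E, h4, h5, h6⟩ := h2 x hx
    refine ⟨fun c hc => ?_, E, h4, h5, fun A hA1 hA2 hA3 hA4 c hc => ?_⟩
    · rw [T_eq]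
      exact h3 c hc
    · have h7 := h6 A hA1 hA2 hA3 hA4 c hc
      have e : S A k x c = (Tf x (zz k x) c).filter
          (fun p : ℕ => ∀ q ∈ A, orderOf ((q : ℕ) : ZMod p) = p - 1) := by
        unfold S IsRoot
        rw [T_eq]
        congr!
      rw [e, T_eq]
      exact h7
  · intro δ hδ
    obtain ⟨C, hC⟩ := Pool.Agent.H482.AP.main_two δ hδ
    refine ⟨C, fun N hN => le_trans (le_of_eq ?_) (hC N hN)⟩
    congr 2
    apply filter_congr
    intro q _
    have e : P q ((q : ℝ) ^ (2 + δ)) = Pool.Agent.H482.AP.Pn q ⌊(q : ℝ) ^ (2 + δ)⌋₊ := by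
      unfold P Pool.Agent.H482.AP.Pn IsRoot
      congr!
    rw [e]

end Pool.Agent.Results.MP_991e92_nt.PolynomialSizeArtinPrimes
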